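import Pool.Agent.Q287.PI.Defs

set_option autoImplicit false

/-!
# BLUE's optimal strategy
-/

open MeasureTheory Set Function
open scoped ENNReal

namespace Q287.PI

/-- The terms of the superadditive hull. -/
noncomputable def tm (β v x : ℝ) (k : ℕ) : ℝ := (k - k ^ 2 * v / x) / (1 + β)

/-- The distribution function of BLUE's strategy. -/
noncomputable def G (β v x : ℝ) : ℝ := if x ≤ 0 then 0 else ⨆ k : ℕ, tm β v (min x 1) k

section
variable {β v : ℝ} (hβ : 0 ≤ β) (hv : 0 < v) (hM : ∀ k : ℕ, 1 ≤ k → ((k : ℝ) - 1 - β) / (k : ℝ) ^ 2 ≤ v)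
include hβ hv

theorem tm_le {x : ℝ} (hx : 0 < x) (k : ℕ) : tm β v x k ≤ x / (4 * v) := by
  unfold tm
  have h1 : (k : ℝ) - k ^ 2 * v / x ≤ x / (4 * v) := by
    have h2 : x / (4 * v) - ((k : ℝ) - k ^ 2 * v / x) = (x - 2 * v * k) ^ 2 / (4 * v * x) := by
      field_simp
      ring
    have h3 : 0 ≤ (x - 2 * v * k) ^ 2 / (4 * v * x) := by positivity
    linarith
  have h4 : 0 ≤ x / (4 * v) := by positivity
  rw [div_le_iff₀ (by linarith)]
  nlinarith

theorem bdd {x : ℝ} (hx : 0 < x) : BddAbove (range (tm β v x)) :=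
  ⟨x / (4 * v), by rintro _ ⟨k, rfl⟩; exact tm_le hβ hv hx k⟩

theorem tm_mono {x y : ℝ} (hx : 0 < x) (hxy : x ≤ y) (k : ℕ) : tm β v x k ≤ tm β v y k := by
  unfold tm
  gcongr

theorem G_nonneg (x : ℝ) : 0 ≤ G β v x := by
  unfold G
  split_ifs with h
  · exact le_rfl
  · push Not at h
    have h1 : 0 < min x 1 := lt_min h one_pos
    have h2 := le_ciSup (bdd hβ hv h1) 0
    have h3 : tm β v (min x 1) 0 = 0 := by simp [tm]
    rw [h3] at h2
    exact h2

theorem G_mono : Monotone (G β v) := by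
  intro x y hxy
  rcases le_or_gt x 0 with hx | hx
  · have : G β v x = 0 := by unfold G; rw [if_pos hx]
    rw [this]; exact G_nonneg hβ hv y
  · have hy : 0 < y := hx.trans_le hxy
    have h1 : 0 < min x 1 := lt_min hx one_pos
    have h2 : 0 < min y 1 := lt_min hy one_pos
    unfold G
    rw [if_neg (not_le.2 hx), if_neg (not_le.2 hy)]
    exact ciSup_mono (bdd hβ hv h2) fun k => tm_mono hβ hv h1 (min_le_min_right 1 hxy) k

omit hβ hv in
theorem G_neg {x : ℝ} (hx : x ≤ 0) : G β v x = 0 := by unfold G; rw [if_pos hx]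

omit hβ hv in
theorem G_ge {x : ℝ} (hx : 1 ≤ x) : G β v x = G β v 1 := by
  unfold G
  rw [if_neg (by linarith), if_neg (by norm_num), min_eq_right hx, min_self]

include hM in
omit hv in
theorem G_one_le : G β v 1 ≤ 1 := by
  unfold G
  rw [if_neg (by norm_num), min_self]
  refine ciSup_le fun k => ?_
  unfold tm
  rw [div_one, div_le_one (by linarith)]
  rcases Nat.eq_zero_or_pos k with hk | hk
  · subst hk; simp; linarith
  · have h1 := hM k hk
    have h2 : (0 : ℝ) < k := by exact_mod_cast hk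
    rw [div_le_iff₀ (by positivity)] at h1
    nlinarith

/-- Superadditivity, with one term. -/
theorem G_add {x A : ℝ} (hx : 0 ≤ x) (hA : 0 < A) (hxA : x + A ≤ 1) :
    G β v x + (1 - v / A) / (1 + β) ≤ G β v (x + A) := by
  have hb : 0 < 1 + β := by linarith
  have hxA0 : 0 < x + A := by linarith
  have e1 : G β v (x + A) = ⨆ k : ℕ, tm β v (x + A) k := by
    unfold G; rw [if_neg (by linarith), min_eq_left hxA]
  rw [e1]
  rcases hx.eq_or_lt with hx0 | hx0
  · subst hx0
    rw [G_neg le_rfl, zero_add, zero_add]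
    have h1 := le_ciSup (bdd hβ hv hA) 1
    have h2 : tm β v A 1 = (1 - v / A) / (1 + β) := by simp [tm]
    rw [h2] at h1
    exact h1
  · have e2 : G β v x = ⨆ k : ℕ, tm β v x k := by
      unfold G; rw [if_neg (by linarith), min_eq_left (by linarith)]
    rw [e2, ← le_sub_iff_add_le]
    refine ciSup_le fun k => ?_
    rw [le_sub_iff_add_le]
    have h1 := le_ciSup (bdd hβ hv hxA0) (k + 1)
    refine le_trans ?_ h1
    unfold tm
    rw [← add_div]
    refine div_le_div_of_nonneg_right ?_ hb.le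
    push_cast
    have h2 : ((k : ℝ) + 1) ^ 2 * v / (x + A) ≤ k ^ 2 * v / x + v / A := by
      have h3 : k ^ 2 * v / x + v / A - ((k : ℝ) + 1) ^ 2 * v / (x + A) =
          v * (k * A - x) ^ 2 / (x * A * (x + A)) := by
        field_simp
        ring
      have h4 : 0 ≤ v * (k * A - x) ^ 2 / (x * A * (x + A)) := by positivity
      linarith
    linarith

end

/-- BLUE's strategy. -/
theorem exists_blue {β v : ℝ} (hβ : 0 ≤ β) (hv : 0 < v)
    (hM : ∀ k : ℕ, 1 ≤ k → ((k : ℝ) - 1 - β) / (k : ℝ) ^ 2 ≤ v) :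
    ∃ ν : ProbabilityMeasure Blue, ∀ x : Red, v < x.1.2 →
      ENNReal.ofReal ((1 - v / x.1.2) / (1 + β)) ≤
        (ν : Measure Blue) {p | (p : ℝ) ∈ Icc x.1.1 (x.1.1 + x.1.2)} := by
  have hmono := G_mono hβ hv
  set F := hmono.stieltjesFunction with hF
  set κ : Measure ℝ := F.measure.restrict (Icc 0 1) with hκ
  have hκ1 : κ univ ≤ 1 := by
    rw [hκ, Measure.restrict_apply_univ, StieltjesFunction.measure_Icc, hmono.stieltjesFunction_eq]
    have h1 : rightLim (G β v) 1 ≤ 1 := by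
      refine (hmono.rightLim_le (show (1 : ℝ) < 2 by norm_num)).trans ?_
      rw [G_ge (by norm_num)]
      exact G_one_le hβ hM
    have h2 : 0 ≤ leftLim F 0 := by
      have h3 : leftLim (⇑F) 0 = leftLim (rightLim (G β v)) 0 := by
        congr 1
      rw [h3, leftLim_rightLim (hmono.tendsto_leftLim _)]
      refine le_trans (G_nonneg hβ hv (-1)) (hmono.le_leftLim (by norm_num))
    rw [← ENNReal.ofReal_one]
    exact ENNReal.ofReal_le_ofReal (by linarith)
  set ν₀ : Measure ℝ := κ + (1 - κ univ) • Measure.dirac 0 with hν₀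
  have hν₀1 : IsProbabilityMeasure ν₀ := by
    refine ⟨?_⟩
    rw [hν₀, Measure.add_apply, Measure.smul_apply, Measure.dirac_apply' _ MeasurableSet.univ]
    simp [add_tsub_cancel_of_le hκ1]
  have hproj : Measurable (projIcc (0 : ℝ) 1 zero_le_one) := continuous_projIcc.measurable
  have hν1 : IsProbabilityMeasure (ν₀.map (projIcc (0 : ℝ) 1 zero_le_one)) :=
    Measure.isProbabilityMeasure_map hproj.aemeasurable
  refine ⟨⟨ν₀.map (projIcc (0 : ℝ) 1 zero_le_one), hν1⟩, ?_⟩
  rintro ⟨⟨a, A⟩, ha, hA, haA⟩ hvA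
  dsimp only at ha hA haA hvA ⊢
  have hA0 : 0 < A := hv.trans hvA
  have hms : MeasurableSet {p : Blue | (p : ℝ) ∈ Icc a (a + A)} := measurable_subtype_coe measurableSet_Icc
  show _ ≤ (ν₀.map (projIcc (0 : ℝ) 1 zero_le_one)) _
  rw [Measure.map_apply hproj hms]
  have hsub : Icc a (a + A) ⊆ projIcc (0 : ℝ) 1 zero_le_one ⁻¹' {p : Blue | (p : ℝ) ∈ Icc a (a + A)} := by
    intro y hy
    have hy' : y ∈ Icc (0 : ℝ) 1 := ⟨ha.trans hy.1, hy.2.trans haA⟩
    show ((projIcc (0 : ℝ) 1 zero_le_one y : Blue) : ℝ) ∈ Icc a (a + A)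
    rw [projIcc_of_mem zero_le_one hy']
    exact hy
  refine le_trans ?_ (measure_mono hsub)
  rw [hν₀, Measure.add_apply]
  refine le_trans ?_ le_self_add
  rw [hκ, Measure.restrict_apply measurableSet_Icc]
  have hsub2 : Icc a (a + A) ∩ Icc (0 : ℝ) 1 = Icc a (a + A) := by
    rw [inter_eq_left]
    exact Icc_subset_Icc ha haA
  rw [hsub2, StieltjesFunction.measure_Icc, hmono.stieltjesFunction_eq]
  refine ENNReal.ofReal_le_ofReal ?_
  have h1 : G β v (a + A) ≤ rightLim (G β v) (a + A) := hmono.le_rightLim le_rfl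
  have h2 : leftLim F a ≤ G β v a := by
    have h3 : leftLim (⇑F) a = leftLim (rightLim (G β v)) a := by
      congr 1
    rw [h3, leftLim_rightLim (hmono.tendsto_leftLim _)]
    exact hmono.leftLim_le le_rfl
  have h3 := G_add hβ hv ha hA0 haA
  linarith

end Q287.PI
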