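import Mathlib

set_option autoImplicit false

/-!
# The point-versus-interval game `Γ_β`: definitions
-/

open MeasureTheory

namespace Q287.PI

/-- RED's pure strategies `(a, A)`, i.e. the closed intervals `[a, a + A] ⊆ [0, 1]`, `A ≥ 0`. -/
abbrev Red : Type := {x : ℝ × ℝ // 0 ≤ x.1 ∧ 0 ≤ x.2 ∧ x.1 + x.2 ≤ 1}

/-- BLUE's pure strategies: the points of `[0, 1]`. -/
abbrev Blue : Type := Set.Icc (0 : ℝ) 1

open Classical in
/-- The payoff to RED: `A` if `p ∉ [a, a + A]` and `-β A` if `p ∈ [a, a + A]`. -/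
noncomputable def payoff (β : ℝ) (x : Red) (p : Blue) : ℝ :=
  if (p : ℝ) ∈ Set.Icc x.1.1 (x.1.1 + x.1.2) then -β * x.1.2 else x.1.2

/-- The expected payoff for mixed strategies (Borel probability measures). -/
noncomputable def expect (β : ℝ) (μ : ProbabilityMeasure Red) (ν : ProbabilityMeasure Blue) : ℝ :=
  ∫ z, payoff β z.1 z.2 ∂((μ : Measure Red).prod (ν : Measure Blue))

/-- `sup_μ inf_ν` of the expected payoff. -/
noncomputable def lowerValue (β : ℝ) : ℝ :=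
  ⨆ μ : ProbabilityMeasure Red, ⨅ ν : ProbabilityMeasure Blue, expect β μ ν

/-- `inf_ν sup_μ` of the expected payoff. -/
noncomputable def upperValue (β : ℝ) : ℝ :=
  ⨅ ν : ProbabilityMeasure Blue, ⨆ μ : ProbabilityMeasure Red, expect β μ ν

/-- `v` is `max_{n ≥ 1} (n - 1 - β) / n²`. -/
def IsM (β v : ℝ) : Prop :=
  IsGreatest {r : ℝ | ∃ n : ℕ, 1 ≤ n ∧ r = ((n : ℝ) - 1 - β) / (n : ℝ) ^ 2} v

end Q287.PI
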