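import Pool.Agent.Q287.PI.Blue

set_option autoImplicit false

/-!
# The value of the point-versus-interval game
-/

open MeasureTheory Set Function
open scoped ENNReal

namespace Q287.PI

theorem exists_isM {β : ℝ} (hβ : 0 ≤ β) : ∃ v, IsM β v ∧ 0 < v := by
  obtain ⟨n0, hn0⟩ := exists_nat_gt (1 + β)
  have hn0' : (0 : ℝ) < n0 := by linarith
  have hn1 : 1 ≤ n0 := by
    have : 0 < n0 := by exact_mod_cast hn0'
    exact this
  set r0 : ℝ := ((n0 : ℝ) - 1 - β) / (n0 : ℝ) ^ 2 with hr0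
  have hr0pos : 0 < r0 := div_pos (by linarith) (by positivity)
  obtain ⟨N, hN⟩ := exists_nat_gt (1 / r0)
  have hbig : ∀ n : ℕ, N ≤ n → 1 ≤ n → ((n : ℝ) - 1 - β) / (n : ℝ) ^ 2 < r0 := by
    intro n hn h1
    have h2 : (0 : ℝ) < n := by exact_mod_cast h1
    have h3 : (N : ℝ) ≤ n := by exact_mod_cast hn
    rw [div_lt_iff₀ hr0pos] at hN
    rw [div_lt_iff₀ (by positivity)]
    nlinarith [mul_pos hr0pos h2]
  obtain ⟨m, hm1, hm2⟩ := Finset.exists_max_image (Finset.Icc 1 (max N n0))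
    (fun n : ℕ => ((n : ℝ) - 1 - β) / (n : ℝ) ^ 2) ⟨n0, Finset.mem_Icc.2 ⟨hn1, le_max_right _ _⟩⟩
  rw [Finset.mem_Icc] at hm1
  have hm0 : r0 ≤ ((m : ℝ) - 1 - β) / (m : ℝ) ^ 2 :=
    hm2 n0 (Finset.mem_Icc.2 ⟨hn1, le_max_right _ _⟩)
  refine ⟨((m : ℝ) - 1 - β) / (m : ℝ) ^ 2, ⟨⟨m, hm1.1, rfl⟩, ?_⟩, hr0pos.trans_le hm0⟩
  rintro _ ⟨k, hk, rfl⟩
  rcases le_or_gt k (max N n0) with h | h
  · exact hm2 k (Finset.mem_Icc.2 ⟨hk, h⟩)
  · exact (hbig k ((le_max_left _ _).trans h.le) hk).le.trans hm0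

section
variable {β : ℝ} (hβ : 0 ≤ β)
include hβ

theorem payoff_le (x : Red) (p : Blue) : payoff β x p ≤ 1 := by
  have h1 := x.2.1
  have h2 := x.2.2.1
  have h3 := x.2.2.2
  unfold payoff
  split_ifs
  · nlinarith
  · linarith

theorem payoff_ge (x : Red) (p : Blue) : -β ≤ payoff β x p := by
  have h1 := x.2.1
  have h2 := x.2.2.1
  have h3 := x.2.2.2
  unfold payoff
  split_ifs
  · nlinarith
  · linarith

omit hβ in
theorem measurable_payoff : Measurable (fun z : Red × Blue => payoff β z.1 z.2) := by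
  unfold payoff
  have h1 : Measurable (fun z : Red × Blue => z.1.1.1) :=
    measurable_fst.comp (measurable_subtype_coe.comp measurable_fst)
  have h2 : Measurable (fun z : Red × Blue => z.1.1.2) :=
    measurable_snd.comp (measurable_subtype_coe.comp measurable_fst)
  have h3 : Measurable (fun z : Red × Blue => (z.2 : ℝ)) := measurable_subtype_coe.comp measurable_snd
  refine Measurable.ite ?_ (measurable_const.mul h2) h2
  exact (measurableSet_le h1 h3).inter (measurableSet_le h3 (h1.add h2))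

theorem integrable_payoff (μ : ProbabilityMeasure Red) (ν : ProbabilityMeasure Blue) :
    Integrable (fun z : Red × Blue => payoff β z.1 z.2) ((μ : Measure Red).prod (ν : Measure Blue)) := by
  refine Integrable.of_bound measurable_payoff.aestronglyMeasurable (1 + β)
    (Filter.Eventually.of_forall fun z => ?_)
  have h1 := payoff_le hβ z.1 z.2
  have h2 := payoff_ge hβ z.1 z.2
  rw [Real.norm_eq_abs, abs_le]
  constructor <;> linarith

theorem expect_le (μ : ProbabilityMeasure Red) (ν : ProbabilityMeasure Blue) : expect β μ ν ≤ 1 := by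
  unfold expect
  calc _ ≤ ∫ _z : Red × Blue, (1 : ℝ) ∂((μ : Measure Red).prod (ν : Measure Blue)) :=
        integral_mono (integrable_payoff hβ μ ν) (integrable_const _) fun z => payoff_le hβ z.1 z.2
    _ = 1 := by simp

theorem expect_ge (μ : ProbabilityMeasure Red) (ν : ProbabilityMeasure Blue) : -β ≤ expect β μ ν := by
  unfold expect
  calc -β = ∫ _z : Red × Blue, (-β : ℝ) ∂((μ : Measure Red).prod (ν : Measure Blue)) := by simp
    _ ≤ _ := integral_mono (integrable_const _) (integrable_payoff hβ μ ν) fun z => payoff_ge hβ z.1 z.2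

omit hβ in
theorem inner_eq (x : Red) (ν : ProbabilityMeasure Blue) :
    ∫ p, payoff β x p ∂(ν : Measure Blue) =
      x.1.2 - (1 + β) * x.1.2 * (ν : Measure Blue).real {p | (p : ℝ) ∈ Icc x.1.1 (x.1.1 + x.1.2)} := by
  have hms : MeasurableSet {p : Blue | (p : ℝ) ∈ Icc x.1.1 (x.1.1 + x.1.2)} :=
    measurable_subtype_coe measurableSet_Icc
  have h1 : ∀ p : Blue, payoff β x p = x.1.2 - (1 + β) * x.1.2 *
      ({p : Blue | (p : ℝ) ∈ Icc x.1.1 (x.1.1 + x.1.2)}.indicator 1 p : ℝ) := by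
    intro p
    unfold payoff
    by_cases h : (p : ℝ) ∈ Icc x.1.1 (x.1.1 + x.1.2)
    · rw [if_pos h, indicator_of_mem (show p ∈ {p : Blue | (p : ℝ) ∈ Icc x.1.1 (x.1.1 + x.1.2)} from h)]
      simp; ring
    · rw [if_neg h, indicator_of_notMem (show p ∉ {p : Blue | (p : ℝ) ∈ Icc x.1.1 (x.1.1 + x.1.2)} from h)]
      simp
  simp only [h1]
  have h2 : Integrable (fun p : Blue => ({p : Blue | (p : ℝ) ∈ Icc x.1.1 (x.1.1 + x.1.2)}.indicator 1 p : ℝ))
      (ν : Measure Blue) := (integrable_indicator_iff hms).2 (integrable_const (1 : ℝ)).integrableOn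
  rw [integral_sub (integrable_const _) (h2.const_mul _), integral_const_mul, integral_indicator_one hms]
  simp

theorem upper_le {v : ℝ} (hv : 0 < v)
    (hM : ∀ k : ℕ, 1 ≤ k → ((k : ℝ) - 1 - β) / (k : ℝ) ^ 2 ≤ v) :
    ∃ ν : ProbabilityMeasure Blue, ∀ μ, expect β μ ν ≤ v := by
  obtain ⟨ν, hν⟩ := exists_blue hβ hv hM
  refine ⟨ν, fun μ => ?_⟩
  unfold expect
  rw [integral_prod _ (integrable_payoff hβ μ ν)]
  have hin : ∀ x : Red, ∫ p, payoff β x p ∂(ν : Measure Blue) ≤ v := by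
    intro x
    rw [inner_eq]
    have hb : 0 < 1 + β := by linarith
    rcases le_or_gt x.1.2 v with h | h
    · have h1 : 0 ≤ (1 + β) * x.1.2 * (ν : Measure Blue).real {p | (p : ℝ) ∈ Icc x.1.1 (x.1.1 + x.1.2)} :=
        mul_nonneg (mul_nonneg hb.le x.2.2.1) measureReal_nonneg
      linarith
    · have h1 := hν x h
      have h2 : (1 - v / x.1.2) / (1 + β) ≤
          (ν : Measure Blue).real {p | (p : ℝ) ∈ Icc x.1.1 (x.1.1 + x.1.2)} := by
        rw [Measure.real]
        exact (ENNReal.ofReal_le_iff_le_toReal (measure_ne_top _ _)).1 h1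
      have hA : 0 < x.1.2 := hv.trans h
      rw [div_le_iff₀ hb] at h2
      have h3 := mul_le_mul_of_nonneg_left h2 hA.le
      have h4 : x.1.2 * (1 - v / x.1.2) = x.1.2 - v := by field_simp
      rw [h4] at h3
      nlinarith
  calc ∫ x, ∫ p, payoff β x p ∂(ν : Measure Blue) ∂(μ : Measure Red)
      ≤ ∫ _x, v ∂(μ : Measure Red) :=
        integral_mono (integrable_payoff hβ μ ν).integral_prod_left (integrable_const _) hin
    _ = v := by simp

/-- RED's interval number `i`. -/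
noncomputable def redI (n : ℕ) (A : ℝ) (hA : 0 ≤ A) (hAn : n * A ≤ 1) (i : Fin n) : Red :=
  ⟨((i : ℝ) / n, A), by
    have hn : (0 : ℝ) < n := by
      have : 0 < n := i.pos
      exact_mod_cast this
    have hi : (i : ℝ) + 1 ≤ n := by exact_mod_cast i.2
    refine ⟨by positivity, hA, ?_⟩
    have h1 : A ≤ 1 / n := by rw [le_div_iff₀ hn]; linarith
    have h2 : (i : ℝ) / n + 1 / n ≤ 1 := by
      rw [← add_div, div_le_one hn]; exact hi
    show (i : ℝ) / n + A ≤ 1
    linarith⟩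

omit hβ in
theorem redI_unique {n : ℕ} {A : ℝ} (hAn : n * A < 1) (p : ℝ) (i j : Fin n)
    (hi : p ∈ Icc ((i : ℝ) / n) ((i : ℝ) / n + A)) (hj : p ∈ Icc ((j : ℝ) / n) ((j : ℝ) / n + A)) :
    i = j := by
  have hn : (0 : ℝ) < n := by
    have : 0 < n := i.pos
    exact_mod_cast this
  have key : ∀ a b : Fin n, p ∈ Icc ((a : ℝ) / n) ((a : ℝ) / n + A) →
      p ∈ Icc ((b : ℝ) / n) ((b : ℝ) / n + A) → (a : ℕ) ≤ b := by
    intro a b ha hb
    by_contra hcon
    push Not at hcon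
    have h1 : (b : ℝ) + 1 ≤ a := by exact_mod_cast hcon
    have h2 : (a : ℝ) / n ≤ (b : ℝ) / n + A := ha.1.trans hb.2
    rw [div_le_iff₀ hn] at h2
    have h3 : ((b : ℝ) / n + A) * n = b + n * A := by field_simp
    rw [h3] at h2
    linarith
  exact Fin.ext (le_antisymm (key i j hi hj) (key j i hj hi))

theorem lower_ge {n : ℕ} (hn : 1 ≤ n) {A : ℝ} (hA : 0 ≤ A)
    (hAn : n * A < 1) :
    ∃ μ : ProbabilityMeasure Red, ∀ ν, A * ((n : ℝ) - 1 - β) / n ≤ expect β μ ν := by
  classical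
  have hn0 : (0 : ℝ) < n := by exact_mod_cast hn
  have : NeZero n := ⟨by omega⟩
  set x : Fin n → Red := redI n A hA hAn.le with hx
  set μ₀ : Measure Red := (n : ℝ≥0∞)⁻¹ • ∑ i : Fin n, Measure.dirac (x i) with hμ₀
  have hprob : IsProbabilityMeasure μ₀ := by
    refine ⟨?_⟩
    rw [hμ₀, Measure.smul_apply, Measure.finsetSum_apply]
    simp only [measure_univ, Finset.sum_const, Finset.card_univ, Fintype.card_fin, smul_eq_mul,
      nsmul_eq_mul, mul_one]
    exact ENNReal.inv_mul_cancel (by simp; omega) (by simp)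
  obtain ⟨μ', hμ'⟩ : ∃ μ' : ProbabilityMeasure Red, (μ' : Measure Red) = μ₀ := ⟨⟨μ₀, hprob⟩, rfl⟩
  refine ⟨μ', fun ν => ?_⟩
  unfold expect
  rw [integral_prod_symm _ (integrable_payoff hβ μ' ν)]
  have hin : ∀ p : Blue, A * ((n : ℝ) - 1 - β) / n ≤
      ∫ y, payoff β y p ∂(μ' : Measure Red) := by
    intro p
    have e1 : ∫ y, payoff β y p ∂(μ' : Measure Red) =
        (n : ℝ)⁻¹ * ∑ i : Fin n, payoff β (x i) p := by
      rw [hμ', hμ₀, integral_smul_measure, integral_finsetSum_measure]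
      · simp only [integral_dirac, smul_eq_mul, ENNReal.toReal_inv, ENNReal.toReal_natCast]
      · intro i _
        refine Integrable.of_bound (measurable_payoff.comp
          (measurable_id.prodMk measurable_const)).aestronglyMeasurable (1 + β)
          (Filter.Eventually.of_forall fun z => ?_)
        have h1 := payoff_le hβ z p
        have h2 := payoff_ge hβ z p
        show ‖payoff β z p‖ ≤ 1 + β
        rw [Real.norm_eq_abs, abs_le]
        constructor <;> linarith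
    rw [e1]
    have e2 : ∀ i : Fin n, payoff β (x i) p =
        A - (1 + β) * A * (if (p : ℝ) ∈ Icc ((i : ℝ) / n) ((i : ℝ) / n + A) then 1 else 0) := by
      intro i
      unfold payoff
      show (if (p : ℝ) ∈ Icc ((i : ℝ) / n) ((i : ℝ) / n + A) then -β * A else A) = _
      split_ifs <;> ring
    have e3 : ∑ i : Fin n, (if (p : ℝ) ∈ Icc ((i : ℝ) / n) ((i : ℝ) / n + A) then (1 : ℝ) else 0) ≤ 1 := by
      by_cases h : ∃ i : Fin n, (p : ℝ) ∈ Icc ((i : ℝ) / n) ((i : ℝ) / n + A)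
      · obtain ⟨i, hi⟩ := h
        rw [Finset.sum_eq_single i]
        · rw [if_pos hi]
        · intro j _ hj
          rw [if_neg]
          intro hj2
          exact hj (redI_unique hAn p j i hj2 hi)
        · intro hi2; exact absurd (Finset.mem_univ _) hi2
      · push Not at h
        rw [Finset.sum_eq_zero fun i _ => if_neg (h i)]
        norm_num
    simp only [e2]
    rw [Finset.sum_sub_distrib, ← Finset.mul_sum]
    simp only [Finset.sum_const, Finset.card_univ, Fintype.card_fin, nsmul_eq_mul]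
    set s := ∑ i : Fin n, (if (p : ℝ) ∈ Icc ((i : ℝ) / n) ((i : ℝ) / n + A) then (1 : ℝ) else 0)
    rw [inv_mul_eq_div]
    refine div_le_div_of_nonneg_right ?_ hn0.le
    have h5 : 0 ≤ (1 + β) * A := mul_nonneg (by linarith) hA
    nlinarith
  calc A * ((n : ℝ) - 1 - β) / n = ∫ _p : Blue, A * ((n : ℝ) - 1 - β) / n ∂(ν : Measure Blue) := by simp
    _ ≤ _ := integral_mono (integrable_const _)
        (integrable_payoff hβ μ' ν).integral_prod_right hin

/-- **The value of `Γ_β`.** -/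
theorem value_eq {v : ℝ} (hM : IsM β v) (hv : 0 < v) : lowerValue β = v ∧ upperValue β = v := by
  have hk : ∀ k : ℕ, 1 ≤ k → ((k : ℝ) - 1 - β) / (k : ℝ) ^ 2 ≤ v := fun k h => hM.2 ⟨k, h, rfl⟩
  obtain ⟨n, hn, hvn⟩ := hM.1
  have hn0 : (0 : ℝ) < n := by exact_mod_cast hn
  have hnum : 0 < (n : ℝ) - 1 - β := by
    rw [hvn] at hv
    by_contra hcon
    push Not at hcon
    exact absurd hv (not_lt.2 (div_nonpos_of_nonpos_of_nonneg hcon (by positivity)))
  obtain ⟨ν, hν⟩ := upper_le hβ hv hk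
  have hne : Nonempty (ProbabilityMeasure Blue) := ⟨ν⟩
  obtain ⟨μ1, -⟩ := lower_ge hβ hn (A := 0) le_rfl (by simp)
  have hne2 : Nonempty (ProbabilityMeasure Red) := ⟨μ1⟩
  have hbR : ∀ ν, BddAbove (range fun μ : ProbabilityMeasure Red => expect β μ ν) := fun ν =>
    ⟨1, by rintro _ ⟨μ, rfl⟩; exact expect_le hβ μ ν⟩
  have hbB : ∀ μ, BddBelow (range fun ν : ProbabilityMeasure Blue => expect β μ ν) := fun μ =>
    ⟨-β, by rintro _ ⟨ν, rfl⟩; exact expect_ge hβ μ ν⟩
  have hb1 : BddBelow (range fun ν : ProbabilityMeasure Blue => ⨆ μ : ProbabilityMeasure Red, expect β μ ν) :=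
    ⟨-β, by
      rintro _ ⟨ν, rfl⟩
      exact (expect_ge hβ μ1 ν).trans (le_ciSup (hbR ν) μ1)⟩
  have hb2 : BddAbove (range fun μ : ProbabilityMeasure Red => ⨅ ν : ProbabilityMeasure Blue, expect β μ ν) :=
    ⟨1, by
      rintro _ ⟨μ, rfl⟩
      exact (ciInf_le (hbB μ) ν).trans (expect_le hβ μ ν)⟩
  have hup : upperValue β ≤ v := (ciInf_le hb1 ν).trans (ciSup_le hν)
  have hweak : lowerValue β ≤ upperValue β := by
    refine ciSup_le fun μ => le_ciInf fun ν' => ?_
    exact (ciInf_le (hbB μ) ν').trans (le_ciSup (hbR ν') μ)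
  have hlow : v ≤ lowerValue β := by
    refine le_of_forall_pos_le_add fun ε hε => ?_
    -- choose `A` close to `1 / n`
    set δ : ℝ := min (1 / (2 * n)) (ε * n / ((n : ℝ) - 1 - β)) with hδ
    have hδ0 : 0 < δ := lt_min (by positivity) (by positivity)
    have hδ1 : δ ≤ 1 / (2 * n) := min_le_left _ _
    have hδ2 : δ ≤ ε * n / ((n : ℝ) - 1 - β) := min_le_right _ _
    have hhalf : 1 / (2 * (n : ℝ)) ≤ 1 / n := by
      refine one_div_le_one_div_of_le hn0 ?_
      linarith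
    have hA0 : 0 ≤ 1 / (n : ℝ) - δ := by linarith
    have hA1 : n * (1 / (n : ℝ) - δ) < 1 := by
      rw [mul_sub, mul_one_div_cancel hn0.ne']
      nlinarith
    obtain ⟨μ, hμ⟩ := lower_ge hβ hn hA0 hA1
    have h1 : (1 / (n : ℝ) - δ) * ((n : ℝ) - 1 - β) / n ≤ lowerValue β :=
      (le_ciInf hμ).trans (le_ciSup hb2 μ)
    have h2 : (1 / (n : ℝ) - δ) * ((n : ℝ) - 1 - β) / n = v - δ * ((n : ℝ) - 1 - β) / n := by
      rw [hvn]; field_simp
    have h3 : δ * ((n : ℝ) - 1 - β) / n ≤ ε := by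
      rw [div_le_iff₀ hn0]
      rwa [le_div_iff₀ hnum] at hδ2
    linarith
  constructor
  · exact le_antisymm (hweak.trans hup) hlow
  · exact le_antisymm hup (hlow.trans hweak)

end

end Q287.PI
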